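import Mathlib
import Pool.Agent.H33.HC.TB
import Pool.Agent.H2.HH.RPT

/-!
# Row RPTC: the terms with the difference, complex shifts
-/

set_option autoImplicit false

open NumberField Complex Filter Topology MeasureTheory
open scoped ContDiff nonZeroDivisors Classical

namespace Pool.Agent.H43.HC

open Pool.Agent.H33.HH Pool.Agent.H33.HC Pool.Agent.H28.RC Pool.Agent.H37.CV
open Pool.Agent.H96.CV (one_le_nm nm_pos two_le_np np_pos nS_pos one_le_nS)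
open Pool.Agent.H2.HH (XS mem_XS Cp_mul Cp_of_mul nm_mul wu_pos)

noncomputable section

section

variable {K : Type} [Field K] [NumberField K]

theorem rptc_sumZ (P Y : ℝ) (f : Ideal (𝓞 K) → ℂ) (h : ∀ I, Y < nm I → f I = 0) :
    sumZ P f = ∑ I ∈ XS K P Y, f I := by
  have h1 : sumZ P f = ∑' I : {I : Ideal (𝓞 K) | I ≠ ⊥}, (if Cp P I.1 then f I.1 else 0) := rfl
  rw [h1, tsum_subtype {I : Ideal (𝓞 K) | I ≠ ⊥} (fun I => if Cp P I then f I else 0),
    tsum_eq_sum (s := XS K P Y)]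
  · refine Finset.sum_congr rfl fun I hI => ?_
    obtain ⟨h1, h2, h3⟩ := mem_XS.1 hI
    rw [Set.indicator_of_mem (by exact h1), if_pos h2]
  · intro I hI
    by_cases h1 : I ≠ ⊥
    · rw [Set.indicator_of_mem (by exact h1)]
      by_cases h2 : Cp P I
      · rw [if_pos h2]
        apply h
        by_contra h3
        exact hI (mem_XS.2 ⟨h1, h2, not_lt.1 h3⟩)
      · rw [if_neg h2]
    · rw [Set.indicator_of_notMem (by exact h1)]

/-- the exchange of the sums -/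
theorem rptc_inner (P Y : ℝ) {a b n : Ideal (𝓞 K)} (ha : a ≠ ⊥) (hb : b ≠ ⊥) (hbC : Cp P b)
    (hn : n ≠ ⊥) (hnC : Cp P n) (F : ℝ → ℂ) (hF : ∀ u, Y < u → F u = 0) :
    (∑ m ∈ XS K P Y, if a * m = b * n then F (nm m) else 0) =
      if a ∣ b * n then F (nm b * nm n / nm a) else 0 := by
  by_cases h : a ∣ b * n
  · rw [if_pos h]
    obtain ⟨m0, hm0⟩ := h
    have h1 : ∀ m, a * m = b * n ↔ m = m0 := by
      intro m
      rw [hm0]
      constructor
      · intro h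
        exact mul_left_cancel₀ (by simpa using ha) h
      · rintro rfl
        rfl
    have hbn : b * n ≠ ⊥ := by
      have := mul_ne_zero (by simpa using hb : b ≠ 0) (by simpa using hn : n ≠ 0)
      simpa using this
    have hm : m0 ≠ ⊥ := by
      rintro rfl
      apply hbn
      rw [hm0]
      simp
    have hmC : Cp P m0 := by
      apply Cp_of_mul (I := a)
      rw [← hm0]
      exact Cp_mul hbC hnC
    have hnm : nm b * nm n / nm a = nm m0 := by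
      rw [← nm_mul, hm0, nm_mul]
      field_simp [(nm_pos ha).ne']
    rw [hnm]
    simp_rw [h1]
    rw [Finset.sum_ite_eq']
    by_cases h2 : m0 ∈ XS K P Y
    · rw [if_pos h2]
    · rw [if_neg h2, hF]
      by_contra h3
      exact h2 (mem_XS.2 ⟨hm, hmC, not_lt.1 h3⟩)
  · rw [if_neg h]
    refine Finset.sum_eq_zero fun m _ => ?_
    rw [if_neg]
    intro h1
    exact h ⟨m, h1.symm⟩

end

theorem rptc_term (sdv wuv hcv W1v pi Q nk r : ℝ) (tN nn x1 x2 x3 G1 G2 h K0v : ℂ)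
    (h1 : sdv ≠ 0) (h2 : wuv ≠ 0) (h3 : hcv ≠ 0) (h4 : W1v ≠ 0) (h5 : pi ≠ 0) (h6 : Q ≠ 0)
    (h8 : nk ≠ 0) (h11 : r ≠ 0) :
    (2 / ((sdv : ℂ) * nk)) * (x1 * (x2 * tN)) * ((x3 * nn) * G1 * ((h * (Q / r)) * (G2 * K0v))) =
      (1 / 2 * (2 * pi * hcv / (wuv * sdv)) * W1v * (Q : ℂ) ^ 2) * (x1 * x2) *
        (x3 * (G1 * G2) * (h * ((1 + (2 * (tN * nn / (nk * r * Q)) / pi *
          (wuv / (hcv * W1v))) * K0v) - 1))) := by
  have h1' : (sdv : ℂ) ≠ 0 := by exact_mod_cast h1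
  have h2' : (wuv : ℂ) ≠ 0 := by exact_mod_cast h2
  have h3' : (hcv : ℂ) ≠ 0 := by exact_mod_cast h3
  have h4' : (W1v : ℂ) ≠ 0 := by exact_mod_cast h4
  have h5' : (pi : ℂ) ≠ 0 := by exact_mod_cast h5
  have h6' : (Q : ℂ) ≠ 0 := by exact_mod_cast h6
  have h8' : (nk : ℂ) ≠ 0 := by exact_mod_cast h8
  have h11' : (r : ℂ) ≠ 0 := by exact_mod_cast h11
  rw [add_sub_cancel_left]
  field_simp

/-- powers with small exponents are bounded -/
theorem rptc_pw {x Q C₀ m w c : ℝ} (hQ : 1 < Q) (hx1 : 1 ≤ x) (hxQ : x ≤ Q ^ m) (hm : 0 ≤ m)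
    (hw : |w| ≤ c * (C₀ / Real.log Q)) : x ^ w ≤ Real.exp (m * c * C₀) := by
  have hQ0 : 0 < Q := by linarith
  have hlog : 0 < Real.log Q := Real.log_pos hQ
  have hx0 : 0 < x := by linarith
  rw [Real.rpow_def_of_pos hx0]
  apply Real.exp_le_exp.2
  have h1 : Real.log x ≤ m * Real.log Q := by
    rw [← Real.log_rpow hQ0]
    exact Real.log_le_log hx0 hxQ
  have h0 : 0 ≤ Real.log x := Real.log_nonneg hx1
  calc Real.log x * w ≤ Real.log x * |w| := by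
        gcongr
        exact le_abs_self w
    _ ≤ (m * Real.log Q) * (c * (C₀ / Real.log Q)) := by
        gcongr
    _ = m * c * C₀ := by field_simp

/-- the double sum -/
theorem rptc_double {K : Type} [Field K] [NumberField K] {P Z : ℝ} (hZ : 0 < Z) {G : ℝ → ℝ}
    {S T : Finset (PrI K)} (ha : idS S ≠ ⊥) (hb : idS T ≠ ⊥) (hbC : Cp P (idS T))
    (hnm : nm (idS S) = nS np S) (α β : ℂ) (u : ℝ)
    (hG1 : ∀ v, 6 ≤ v → Gs G (se α u) v = 0) (hG2 : ∀ v, 6 ≤ v → Gs G (se β (-u)) v = 0) :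
    (sumZ P fun m => sumZ P fun n => if idS S * m = idS T * n then
      ((nm n : ℝ) : ℂ) ^ (-1 - (α + β)) *
        (Gs G (se α u) (nm m / Z) * Gs G (se β (-u)) (nm n / Z)) else 0) =
    ∑ n ∈ XS K P (6 * Z), if idS S ∣ idS T * n then ((nm n : ℝ) : ℂ) ^ (-1 - (α + β)) *
      (Gs G (se α u) (nm (idS T) * nm n / (nS np S * Z)) * Gs G (se β (-u)) (nm n / Z)) else 0 := by
  have hGY1 : ∀ v, 6 * Z < v → Gs G (se α u) (v / Z) = 0 := fun v hv =>
    hG1 _ (by rw [le_div_iff₀ hZ]; exact hv.le)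
  have hGY2 : ∀ v, 6 * Z < v → Gs G (se β (-u)) (v / Z) = 0 := fun v hv =>
    hG2 _ (by rw [le_div_iff₀ hZ]; exact hv.le)
  have hin : ∀ m : Ideal (𝓞 K), (sumZ P fun n => if idS S * m = idS T * n then
      ((nm n : ℝ) : ℂ) ^ (-1 - (α + β)) *
        (Gs G (se α u) (nm m / Z) * Gs G (se β (-u)) (nm n / Z)) else 0) =
      ∑ n ∈ XS K P (6 * Z), if idS S * m = idS T * n then
      ((nm n : ℝ) : ℂ) ^ (-1 - (α + β)) *
        (Gs G (se α u) (nm m / Z) * Gs G (se β (-u)) (nm n / Z)) else 0 := by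
    intro m
    refine rptc_sumZ P (6 * Z) _ fun n hn => ?_
    simp only [hGY2 _ hn, mul_zero, ite_self]
  rw [show (fun m : Ideal (𝓞 K) => sumZ P fun n => if idS S * m = idS T * n then
      ((nm n : ℝ) : ℂ) ^ (-1 - (α + β)) *
        (Gs G (se α u) (nm m / Z) * Gs G (se β (-u)) (nm n / Z)) else 0) = fun m =>
      ∑ n ∈ XS K P (6 * Z), if idS S * m = idS T * n then
      ((nm n : ℝ) : ℂ) ^ (-1 - (α + β)) *
        (Gs G (se α u) (nm m / Z) * Gs G (se β (-u)) (nm n / Z)) else 0 from funext hin,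
    rptc_sumZ P (6 * Z) _ ?_, Finset.sum_comm]
  · refine Finset.sum_congr rfl fun n hn => ?_
    obtain ⟨n0, nC, -⟩ := mem_XS.1 hn
    rw [rptc_inner P (6 * Z) ha hb hbC n0 nC
      (fun v => ((nm n : ℝ) : ℂ) ^ (-1 - (α + β)) *
        (Gs G (se α u) (v / Z) * Gs G (se β (-u)) (nm n / Z))) ?_]
    · rw [hnm, div_div]
    · intro v hv
      rw [hGY1 v hv, zero_mul, mul_zero]
  · intro m hm
    refine Finset.sum_eq_zero fun n _ => ?_
    simp only [hGY1 _ hm, zero_mul, mul_zero, ite_self]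

theorem rptc_nr {α : ℂ} (u : ℝ) (h : ‖α‖ ≤ 1 / 16) : Nr (se α u) := by
  have h1 := Complex.abs_re_le_norm α
  unfold Nr se
  have e1 : (1 / 2 + α + (u : ℂ) * I).re = 1 / 2 + α.re := by simp
  rw [e1, add_sub_cancel_left]
  linarith

/-- the error term of one `n` -/
theorem rptc_err {K : Type} [Field K] [NumberField K] (P Q y u C : ℝ) (k n : Ideal (𝓞 K))
    (S T : Finset (PrI K)) (Z : ℝ) (D : ℝ → ℝ → ℂ) (hQ0 : 0 < Q) (hZ0 : 0 < Z) (_hC0 : 0 ≤ C)
    (hu0 : 0 < u) (hu : u = nm k * nS np (SP K P) * (Q / Z))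
    (hkb : k ≠ ⊥) (hn : n ≠ ⊥) (hb : idS T ≠ ⊥)
    (hs3 : ∀ R₀ ∈ (SP K P).powerset, |hk P k R₀| ≤ 1)
    (hD : ∀ x t : ℝ, 0 < x → 0 < t → t ≤ u * x → ‖D x t‖ ≤ C * u ^ y / x) :
    ‖∑ R₁ ∈ S.powerset, ∑ R₀ ∈ (SP K P).powerset,
        ((ha R₁ (idS T * n) * Pool.Agent.H33.HH.hk P k R₀ * (Q / (nS np R₁ * nS np R₀)) : ℝ) : ℂ) *
        D (nm (idS T) * nm n / (nm k * (nS np R₁ * nS np R₀) * Q))
        (nm (idS T) * nm n / (nS np S * Z))‖ ≤
      ((SP K P).powerset.card : ℝ) * (C * u ^ y *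
          (nm k * Q ^ 2 / (nm (idS T) * nm n))) * ∑ R ∈ S.powerset, |ha R (idS T * n)| := by
  have hknm := nm_pos hkb
  have hn0 := nm_pos hn
  have hb0 := nm_pos hb
  have hS0 := nS_pos S
  have e1 : ‖∑ R₁ ∈ S.powerset, ∑ R₀ ∈ (SP K P).powerset,
        ((ha R₁ (idS T * n) * Pool.Agent.H33.HH.hk P k R₀ * (Q / (nS np R₁ * nS np R₀)) : ℝ) : ℂ) *
        D (nm (idS T) * nm n / (nm k * (nS np R₁ * nS np R₀) * Q))
        (nm (idS T) * nm n / (nS np S * Z))‖ ≤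
      ∑ R₁ ∈ S.powerset, ∑ R₀ ∈ (SP K P).powerset, |ha R₁ (idS T * n)| *
        (C * u ^ y * (nm k * Q ^ 2 / (nm (idS T) * nm n))) := by
    refine le_trans (norm_sum_le _ _) (Finset.sum_le_sum fun R₁ hR₁ => ?_)
    refine le_trans (norm_sum_le _ _) (Finset.sum_le_sum fun R₀ hR₀ => ?_)
    have r1 := nS_pos R₁
    have r0 := nS_pos R₀
    have hrle : nS np R₁ * nS np R₀ ≤ nS np S * nS np (SP K P) :=
      mul_le_mul (Pool.Agent.H19.CV.nS_mono two_le_np (Finset.mem_powerset.1 hR₁))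
        (Pool.Agent.H19.CV.nS_mono two_le_np (Finset.mem_powerset.1 hR₀)) r0.le hS0.le
    have hSP := nS_pos (SP K P)
    have hk1 := hD (nm (idS T) * nm n / (nm k * (nS np R₁ * nS np R₀) * Q))
      (nm (idS T) * nm n / (nS np S * Z)) (by positivity) (by positivity) ?_
    · rw [norm_mul, Complex.norm_real, Real.norm_eq_abs, abs_mul, abs_mul, abs_of_nonneg
        (by positivity : 0 ≤ Q / (nS np R₁ * nS np R₀))]
      calc |ha R₁ (idS T * n)| * |Pool.Agent.H33.HH.hk P k R₀| * (Q / (nS np R₁ * nS np R₀)) * _ ≤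
          |ha R₁ (idS T * n)| * 1 * (Q / (nS np R₁ * nS np R₀)) *
          (C * u ^ y /
            (nm (idS T) * nm n / (nm k * (nS np R₁ * nS np R₀) * Q))) := by
            have := hs3 R₀ hR₀
            gcongr
        _ = _ := by
          field_simp
    · have e2 : u * (nm (idS T) * nm n / (nm k * (nS np R₁ * nS np R₀) * Q)) =
          nS np (SP K P) * (nm (idS T) * nm n) / (nS np R₁ * nS np R₀ * Z) := by
        rw [hu]
        field_simp
      rw [e2, div_le_div_iff₀ (by positivity) (by positivity)]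
      calc nm (idS T) * nm n * (nS np R₁ * nS np R₀ * Z) ≤
          nm (idS T) * nm n * (nS np S * nS np (SP K P) * Z) := by gcongr
        _ = _ := by ring
  refine e1.trans (le_of_eq ?_)
  rw [Finset.mul_sum]
  refine Finset.sum_congr rfl fun R₁ _ => ?_
  rw [Finset.sum_const, nsmul_eq_mul]
  ring

theorem pf_RPTC (h1 : T_GSC) (h2 : T_KXC) (h3 : Pool.Agent.H33.HH.T_HSU)
    (h4 : Pool.Agent.H33.HH.T_HAB) (h5 : Pool.Agent.H33.HH.T_IDF) : T_RPTC := by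
  intro K _ _ _ P W G H k θ e C₀ hW hW1 hG hH hk0 hPar hC₀
  obtain ⟨C, hC0, hC⟩ := h2 K W G H hW hG hH
  have he := hPar.epos
  have hθ := hPar.θpos
  have hle := hPar.le
  obtain ⟨CH, hCH0, hCH⟩ := h4 K P θ (e / 8) hθ (by linarith)
  obtain ⟨hGs, hGb⟩ := h1 G hG
  obtain ⟨M, hM0, hM'⟩ := hGb 0
  have hM : ∀ s : ℂ, Nr s → ∀ v : ℝ, ‖Gs G s v‖ ≤ M := by
    intro s hs v
    have := hM' s hs v
    rwa [iteratedDeriv_zero] at this
  have hknm := nm_pos hk0.1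
  have hsd0 : sd K ≠ 0 := by
    unfold sd
    refine Real.sqrt_ne_zero'.2 (abs_pos.2 ?_)
    exact_mod_cast discr_ne_zero K
  have hsd : 0 < sd K := lt_of_le_of_ne (Real.sqrt_nonneg _) hsd0.symm
  have hwu := wu_pos K
  have hhc : 0 < hc K := by
    unfold hc
    have : 0 < classNumber K := Fintype.card_pos
    exact_mod_cast this
  obtain ⟨U, hU⟩ : ∃ U : ℝ, U = nm k * nS np (SP K P) := ⟨_, rfl⟩
  have hUpos : 0 < U := by
    rw [hU]
    exact mul_pos hknm (nS_pos _)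
  refine ⟨e / 8, 2 / sd K * M * C * U ^ (1 / 4 : ℝ) * ((SP K P).powerset.card : ℝ) * CH *
    Real.exp (8 * C₀), max (max 6 (U ^ (1 / e))) (Real.exp (16 * C₀)), by linarith,
    by positivity, le_trans (by norm_num) ((le_max_left _ _).trans (le_max_left _ _)), ?_⟩
  intro Q hQ S hS T hT α β v had
  have hQ6 : 6 ≤ Q := ((le_max_left _ _).trans (le_max_left _ _)).trans hQ
  have hQ1 : 1 ≤ Q := by linarith
  have hQ1' : 1 < Q := by linarith
  have hQ0 : 0 < Q := by linarith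
  have hlogQ : 16 * C₀ ≤ Real.log Q :=
    (Real.le_log_iff_exp_le hQ0).2 ((le_max_right _ _).trans hQ)
  have hlog0 : 0 < Real.log Q := by linarith
  have hsm : C₀ / Real.log Q ≤ 1 / 16 := by
    rw [div_le_iff₀ hlog0]
    linarith
  have hs : Nr (se α v) := rptc_nr v (had.1.trans hsm)
  have hs' : Nr (se β (-v)) := rptc_nr (-v) (had.2.trans hsm)
  have hαre : |α.re| ≤ C₀ / Real.log Q := (Complex.abs_re_le_norm α).trans had.1
  have hβre : |β.re| ≤ C₀ / Real.log Q := (Complex.abs_re_le_norm β).trans had.2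
  have hQU : U ≤ Q ^ e := by
    have h := Real.rpow_le_rpow (Real.rpow_nonneg hUpos.le _)
      (le_trans ((le_max_right _ _).trans (le_max_left _ _)) hQ) he.le
    rwa [← Real.rpow_mul hUpos.le, one_div_mul_cancel he.ne', Real.rpow_one] at h
  obtain ⟨Z, hZ⟩ : ∃ Z : ℝ, Z = Q ^ (1 + e) := ⟨_, rfl⟩
  have hZ0 : 0 < Z := by
    rw [hZ]
    positivity
  obtain ⟨u, hu⟩ : ∃ u : ℝ, u = U * Q ^ (-e) := ⟨_, rfl⟩
  have hu0 : 0 < u := by
    rw [hu]
    positivity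
  have hu1 : u ≤ 1 := by
    rw [hu, Real.rpow_neg hQ0.le, ← div_eq_mul_inv, div_le_one (by positivity)]
    exact hQU
  have hy : 1 ≤ Q ^ θ := Real.one_le_rpow hQ1 hθ.le
  obtain ⟨a0, aC, anm, aS1, aSy, -, -, -⟩ := h5 K P (Q ^ θ) hy S hS
  obtain ⟨b0, bC, bnm, bS1, bSy, -, -, -⟩ := h5 K P (Q ^ θ) hy T hT
  have hG1 : ∀ x, 6 ≤ x → Gs G (se α v) x = 0 := (hGs _ hs).2.2.1
  have hG2 : ∀ x, 6 ≤ x → Gs G (se β (-v)) x = 0 := (hGs _ hs').2.2.1
  have hGY : ∀ x, 6 * Z < x → Gs G (se β (-v)) (x / Z) = 0 := fun x hx =>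
    hG2 _ (by rw [le_div_iff₀ hZ0]; exact hx.le)
  have hS0 := nS_pos S
  have hT0 := nS_pos T
  have hS0c : ((nS np S : ℝ) : ℂ) ≠ 0 := by exact_mod_cast hS0.ne'
  have hT0c : ((nS np T : ℝ) : ℂ) ≠ 0 := by exact_mod_cast hT0.ne'
  rw [← hZ]
  have hN : Na2 P Z Q G k S (idS T) α β v (fun x t => Kc K W G H (se α v) x t) =
      ((2 / (sd K * nm k) : ℝ) : ℂ) *
        (((nS np S : ℝ) : ℂ) ^ (α - 1) * ((nm (idS T) : ℝ) : ℂ) ^ (-α)) *
      ∑ n ∈ XS K P (6 * Z), ((nm n : ℝ) : ℂ) ^ (-(α + β)) * Gs G (se β (-v)) (nm n / Z) *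
      ∑ R₁ ∈ S.powerset, ∑ R₀ ∈ (SP K P).powerset,
      ((ha R₁ (idS T * n) * hk P k R₀ * (Q / (nS np R₁ * nS np R₀)) : ℝ) : ℂ) *
      Kc K W G H (se α v) (nm (idS T) * nm n / (nm k * (nS np R₁ * nS np R₀) * Q))
        (nm (idS T) * nm n / (nS np S * Z)) := by
    unfold Na2
    rw [rptc_sumZ P (6 * Z)]
    intro I hI
    rw [hGY _ hI, mul_zero, zero_mul]
  have hE : Ea2 P Z Q W G H k S (idS T) α β v =
      ((1 / 2 * rh K * W1 W * Q ^ 2 : ℝ) : ℂ) *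
        (((nS np S : ℝ) : ℂ) ^ (α - 1) * ((nm (idS T) : ℝ) : ℂ) ^ (-1 - α)) *
      ∑ n ∈ XS K P (6 * Z), ((nm n : ℝ) : ℂ) ^ (-1 - (α + β)) *
      (Gs G (se β (-v)) (nm n / Z) * Gs G (se α v) (nm (idS T) * nm n / (nS np S * Z))) *
      ∑ R₁ ∈ S.powerset, ∑ R₀ ∈ (SP K P).powerset, ((ha R₁ (idS T * n) * hk P k R₀ : ℝ) : ℂ) *
      psc K W H (se α v) (nm (idS T) * nm n / (nm k * (nS np R₁ * nS np R₀) * Q)) := by
    unfold Ea2
    rw [rptc_sumZ P (6 * Z)]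
    intro I hI
    rw [hGY _ hI, zero_mul, mul_zero, zero_mul]
  have hD : Dd2 P Z G (idS S) (idS T) α β v =
      ((nS np S : ℝ) : ℂ) ^ α * ((nm (idS T) : ℝ) : ℂ) ^ (-1 - α) *
      ∑ n ∈ XS K P (6 * Z), if idS S ∣ idS T * n then ((nm n : ℝ) : ℂ) ^ (-1 - (α + β)) *
      (Gs G (se α v) (nm (idS T) * nm n / (nS np S * Z)) * Gs G (se β (-v)) (nm n / Z))
        else 0 := by
    unfold Dd2
    rw [← rptc_double hZ0 a0 b0 bC anm α β v hG1 hG2, anm]
  -- the identity for one `n`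
  have hid : ∀ n ∈ XS K P (6 * Z),
      ((2 / (sd K * nm k) : ℝ) : ℂ) *
        (((nS np S : ℝ) : ℂ) ^ (α - 1) * ((nm (idS T) : ℝ) : ℂ) ^ (-α)) *
        (((nm n : ℝ) : ℂ) ^ (-(α + β)) * Gs G (se β (-v)) (nm n / Z) *
        ∑ R₁ ∈ S.powerset, ∑ R₀ ∈ (SP K P).powerset,
        ((ha R₁ (idS T * n) * hk P k R₀ * (Q / (nS np R₁ * nS np R₀)) : ℝ) : ℂ) *
        (Gs G (se α v) (nm (idS T) * nm n / (nS np S * Z)) *
          K0c K W H (se α v) (nm (idS T) * nm n / (nm k * (nS np R₁ * nS np R₀) * Q)))) =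
      ((1 / 2 * rh K * W1 W * Q ^ 2 : ℝ) : ℂ) *
        (((nS np S : ℝ) : ℂ) ^ (α - 1) * ((nm (idS T) : ℝ) : ℂ) ^ (-1 - α)) *
        (((nm n : ℝ) : ℂ) ^ (-1 - (α + β)) *
      (Gs G (se β (-v)) (nm n / Z) * Gs G (se α v) (nm (idS T) * nm n / (nS np S * Z))) *
        ∑ R₁ ∈ S.powerset, ∑ R₀ ∈ (SP K P).powerset, ((ha R₁ (idS T * n) * hk P k R₀ : ℝ) : ℂ) *
        psc K W H (se α v) (nm (idS T) * nm n / (nm k * (nS np R₁ * nS np R₀) * Q))) -
      ((1 / 2 * rk K P * W1 W * Q ^ 2 : ℝ) : ℂ) *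
        (((nS np S : ℝ) : ℂ) ^ α * ((nm (idS T) : ℝ) : ℂ) ^ (-1 - α)) *
        (if idS S ∣ idS T * n then ((nm n : ℝ) : ℂ) ^ (-1 - (α + β)) *
      (Gs G (se α v) (nm (idS T) * nm n / (nS np S * Z)) * Gs G (se β (-v)) (nm n / Z))
        else 0) := by
    intro n hn
    obtain ⟨n0, nC, -⟩ := mem_XS.1 hn
    have hn0 := nm_pos n0
    have hn0c : ((nm n : ℝ) : ℂ) ≠ 0 := by exact_mod_cast hn0.ne'
    have hbn : idS T * n ≠ ⊥ := by
      have := mul_ne_zero (by simpa using b0 : idS T ≠ 0) (by simpa using n0 : n ≠ 0)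
      simpa using this
    obtain ⟨hs1, hs2, -, -⟩ := h3 K P (Q ^ θ) hy S hS (idS T * n) k hbn (Cp_mul bC nC) hk0
    have c1 : ((nS np S : ℝ) : ℂ) ^ α = ((nS np S : ℝ) : ℂ) ^ (α - 1) * ((nS np S : ℝ) : ℂ) := by
      rw [Complex.cpow_sub _ _ hS0c, Complex.cpow_one]
      field_simp
    have c2 : ((nm (idS T) : ℝ) : ℂ) ^ (-α) =
        ((nm (idS T) : ℝ) : ℂ) ^ (-1 - α) * ((nm (idS T) : ℝ) : ℂ) := by
      have h0 : ((nm (idS T) : ℝ) : ℂ) ≠ 0 := by
        rw [bnm]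
        exact hT0c
      have : -α = (-1 - α) + 1 := by ring
      rw [this, Complex.cpow_add _ _ h0, Complex.cpow_one]
    have c3 : ((nm n : ℝ) : ℂ) ^ (-(α + β)) =
        ((nm n : ℝ) : ℂ) ^ (-1 - (α + β)) * ((nm n : ℝ) : ℂ) := by
      have : -(α + β) = (-1 - (α + β)) + 1 := by ring
      rw [this, Complex.cpow_add _ _ hn0c, Complex.cpow_one]
    rw [c1, c2, c3]
    generalize ((nS np S : ℝ) : ℂ) ^ (α - 1) = x1
    generalize ((nm (idS T) : ℝ) : ℂ) ^ (-1 - α) = x2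
    generalize ((nm n : ℝ) : ℂ) ^ (-1 - (α + β)) = x3
    generalize hg1 : Gs G (se β (-v)) (nm n / Z) = g1
    generalize hg2 : Gs G (se α v) (nm (idS T) * nm n / (nS np S * Z)) = g2
    have e1 : ((2 / (sd K * nm k) : ℝ) : ℂ) * (x1 * (x2 * ((nm (idS T) : ℝ) : ℂ))) *
        ((x3 * ((nm n : ℝ) : ℂ)) * g1 *
        ∑ R₁ ∈ S.powerset, ∑ R₀ ∈ (SP K P).powerset,
        ((ha R₁ (idS T * n) * hk P k R₀ * (Q / (nS np R₁ * nS np R₀)) : ℝ) : ℂ) *
        (g2 * K0c K W H (se α v) (nm (idS T) * nm n / (nm k * (nS np R₁ * nS np R₀) * Q)))) =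
        ((1 / 2 * rh K * W1 W * Q ^ 2 : ℝ) : ℂ) * (x1 * x2) * (x3 * (g1 * g2) *
        (∑ R₁ ∈ S.powerset, ∑ R₀ ∈ (SP K P).powerset, ((ha R₁ (idS T * n) * hk P k R₀ : ℝ) : ℂ) *
        psc K W H (se α v) (nm (idS T) * nm n / (nm k * (nS np R₁ * nS np R₀) * Q)) -
        ∑ R₁ ∈ S.powerset, ∑ R₀ ∈ (SP K P).powerset,
          ((ha R₁ (idS T * n) * hk P k R₀ : ℝ) : ℂ))) := by
      rw [← Finset.sum_sub_distrib]
      simp_rw [← Finset.sum_sub_distrib, Finset.mul_sum]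
      refine Finset.sum_congr rfl fun R₁ _ => Finset.sum_congr rfl fun R₀ _ => ?_
      have hr : nS np R₁ * nS np R₀ ≠ 0 := (mul_pos (nS_pos _) (nS_pos _)).ne'
      have := rptc_term (sd K) (wu K) (hc K) (W1 W) Real.pi Q (nm k)
        (nS np R₁ * nS np R₀) ((nm (idS T) : ℝ) : ℂ) ((nm n : ℝ) : ℂ) x1 x2 x3 g1 g2
        ((ha R₁ (idS T * n) * hk P k R₀ : ℝ) : ℂ)
        (K0c K W H (se α v) (nm (idS T) * nm n / (nm k * (nS np R₁ * nS np R₀) * Q)))
        hsd0 hwu.ne' hhc.ne' hW1.ne' Real.pi_ne_zero hQ0.ne' hknm.ne' hr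
      unfold psc rh
      push_cast at this ⊢
      rw [this]
      ring
    rw [e1]
    have e2 : (∑ R₁ ∈ S.powerset, ∑ R₀ ∈ (SP K P).powerset,
        ((ha R₁ (idS T * n) * hk P k R₀ : ℝ) : ℂ)) =
        (((if idS S ∣ idS T * n then nS np S else 0) * ∏ p ∈ SP K P, (1 - 1 / np p) : ℝ) : ℂ) := by
      rw [← hs1, ← hs2, Finset.sum_mul_sum]
      push_cast
      rfl
    rw [e2]
    unfold rk
    split_ifs
    · push_cast
      ring
    · push_cast
      ring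
  have hmain : Na2 P Z Q G k S (idS T) α β v (fun x t => Kc K W G H (se α v) x t) -
      (Ea2 P Z Q W G H k S (idS T) α β v - ((1 / 2 * rk K P * W1 W * Q ^ 2 : ℝ) : ℂ) *
        Dd2 P Z G (idS S) (idS T) α β v) =
      ∑ n ∈ XS K P (6 * Z), ((2 / (sd K * nm k) : ℝ) : ℂ) *
        (((nS np S : ℝ) : ℂ) ^ (α - 1) * ((nm (idS T) : ℝ) : ℂ) ^ (-α)) *
        (((nm n : ℝ) : ℂ) ^ (-(α + β)) * Gs G (se β (-v)) (nm n / Z) *
        ∑ R₁ ∈ S.powerset, ∑ R₀ ∈ (SP K P).powerset,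
        ((ha R₁ (idS T * n) * hk P k R₀ * (Q / (nS np R₁ * nS np R₀)) : ℝ) : ℂ) *
        (Kc K W G H (se α v) (nm (idS T) * nm n / (nm k * (nS np R₁ * nS np R₀) * Q))
        (nm (idS T) * nm n / (nS np S * Z)) -
          Gs G (se α v) (nm (idS T) * nm n / (nS np S * Z)) *
          K0c K W H (se α v) (nm (idS T) * nm n / (nm k * (nS np R₁ * nS np R₀) * Q)))) := by
    rw [hN, hE, hD, ← mul_assoc ((1 / 2 * rk K P * W1 W * Q ^ 2 : ℝ) : ℂ), Finset.mul_sum,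
      Finset.mul_sum, Finset.mul_sum, ← Finset.sum_sub_distrib, ← Finset.sum_congr rfl hid,
      ← Finset.sum_sub_distrib]
    refine Finset.sum_congr rfl fun n _ => ?_
    rw [← mul_sub, ← mul_sub, ← Finset.sum_sub_distrib]
    simp_rw [← Finset.sum_sub_distrib, ← mul_sub]
  rw [hmain]
  -- the bound
  have hZQ : Z = Q * Q ^ e := by
    rw [hZ, Real.rpow_add hQ0, Real.rpow_one]
  have hu' : u = nm k * nS np (SP K P) * (Q / Z) := by
    rw [hu, hU, hZQ, Real.rpow_neg hQ0.le]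
    have : Q ^ e ≠ 0 := (Real.rpow_pos_of_pos hQ0 e).ne'
    field_simp
  have hZ3 : 6 * Z ≤ Q ^ 3 := by
    have h1 : Z ≤ Q ^ 2 := by
      rw [hZ, ← Real.rpow_natCast]
      exact Real.rpow_le_rpow_of_exponent_le hQ1 (by push_cast; linarith)
    calc 6 * Z ≤ Q * Q ^ 2 := mul_le_mul hQ6 h1 hZ0.le hQ0.le
      _ = Q ^ 3 := by ring
  have hX : ∑ n ∈ XS K P (6 * Z), (nm n)⁻¹ * ∑ R ∈ S.powerset, |ha R (idS T * n)| ≤
      CH * Q ^ (e / 8) * nS np (S ∩ T) := by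
    refine hCH Q hQ1 S hS T hT (6 * Z) ?_ hZ3 _ fun n hn => ?_
    · have : 1 ≤ Z := by
        rw [hZ]
        exact Real.one_le_rpow hQ1 (by linarith)
      linarith
    · obtain ⟨h1, -, h2⟩ := mem_XS.1 hn
      exact ⟨h1, h2⟩
  have hQθ : Q ^ θ ≤ Q ^ (1 : ℝ) := Real.rpow_le_rpow_of_exponent_le hQ1 (by linarith)
  have b1 : nS np S ^ (α - 1).re ≤ Real.exp C₀ / nS np S := by
    have : (α - 1).re = α.re - 1 := by simp
    rw [this, Real.rpow_sub hS0, Real.rpow_one]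
    have := rptc_pw (x := nS np S) (m := 1) (c := 1) (w := α.re) (C₀ := C₀) hQ1' aS1
      (aSy.trans hQθ) zero_le_one (by rw [one_mul]; exact hαre)
    rw [one_mul, one_mul] at this
    gcongr
  have b2 : nm (idS T) ^ (-α).re ≤ Real.exp C₀ := by
    rw [bnm]
    have h0 : (-α).re = -α.re := by simp
    rw [h0]
    have := rptc_pw (x := nS np T) (m := 1) (c := 1) (w := -α.re) (C₀ := C₀) hQ1' bS1
      (bSy.trans hQθ) zero_le_one (by rw [one_mul, abs_neg]; exact hαre)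
    rwa [one_mul, one_mul] at this
  have b3 : ∀ n ∈ XS K P (6 * Z), nm n ^ (-(α + β)).re ≤ Real.exp (6 * C₀) := by
    intro n hn
    obtain ⟨n0, -, hnZ⟩ := mem_XS.1 hn
    have h0 : (-(α + β)).re = -(α.re + β.re) := by simp
    rw [h0]
    have := rptc_pw (x := nm n) (m := 3) (c := 2) (w := -(α.re + β.re)) (C₀ := C₀) hQ1'
      (one_le_nm n0) (by
        have := hnZ.trans hZ3
        rw [← Real.rpow_natCast] at this
        exact_mod_cast this) (by norm_num) (by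
        rw [abs_neg]
        have := abs_add_le α.re β.re
        linarith)
    refine this.trans (le_of_eq ?_)
    congr 1
    ring
  have hterm : ∀ n ∈ XS K P (6 * Z), ‖((2 / (sd K * nm k) : ℝ) : ℂ) *
        (((nS np S : ℝ) : ℂ) ^ (α - 1) * ((nm (idS T) : ℝ) : ℂ) ^ (-α)) *
        (((nm n : ℝ) : ℂ) ^ (-(α + β)) * Gs G (se β (-v)) (nm n / Z) *
        ∑ R₁ ∈ S.powerset, ∑ R₀ ∈ (SP K P).powerset,
        ((ha R₁ (idS T * n) * hk P k R₀ * (Q / (nS np R₁ * nS np R₀)) : ℝ) : ℂ) *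
        (Kc K W G H (se α v) (nm (idS T) * nm n / (nm k * (nS np R₁ * nS np R₀) * Q))
        (nm (idS T) * nm n / (nS np S * Z)) -
          Gs G (se α v) (nm (idS T) * nm n / (nS np S * Z)) *
          K0c K W H (se α v) (nm (idS T) * nm n / (nm k * (nS np R₁ * nS np R₀) * Q))))‖ ≤
      2 / sd K * M * C * u ^ (1 / 4 : ℝ) * ((SP K P).powerset.card : ℝ) * Real.exp (8 * C₀) *
        (Q ^ 2 / (nS np S * nS np T)) * ((nm n)⁻¹ * ∑ R ∈ S.powerset, |ha R (idS T * n)|) := by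
    intro n hn
    obtain ⟨n0, nC, -⟩ := mem_XS.1 hn
    have hn0 := nm_pos n0
    have hb0 := nm_pos b0
    have hbn : idS T * n ≠ ⊥ := by
      have := mul_ne_zero (by simpa using b0 : idS T ≠ 0) (by simpa using n0 : n ≠ 0)
      simpa using this
    obtain ⟨-, -, hs3, -⟩ := h3 K P (Q ^ θ) hy S hS (idS T * n) k hbn (Cp_mul bC nC) hk0
    have e1 := rptc_err P Q (1 / 4) u C k n S T Z (fun x t => Kc K W G H (se α v) x t -
      Gs G (se α v) t * K0c K W H (se α v) x) hQ0 hZ0 hC0 hu0 hu' hk0.1 n0 b0 hs3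
      (fun x t hx ht htx => hC (se α v) hs u x t hu0 hu1 hx ht htx)
    have e2 := b3 n hn
    rw [norm_mul, norm_mul, norm_mul, norm_mul, norm_mul, Complex.norm_real,
      Real.norm_of_nonneg (by positivity), Complex.norm_cpow_eq_rpow_re_of_pos hS0,
      Complex.norm_cpow_eq_rpow_re_of_pos hb0, Complex.norm_cpow_eq_rpow_re_of_pos hn0]
    have p1 : 0 ≤ nS np S ^ (α - 1).re := Real.rpow_nonneg hS0.le _
    have p2 : 0 ≤ nm (idS T) ^ (-α).re := Real.rpow_nonneg hb0.le _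
    have p3 : 0 ≤ nm n ^ (-(α + β)).re := Real.rpow_nonneg hn0.le _
    calc 2 / (sd K * nm k) * (nS np S ^ (α - 1).re * nm (idS T) ^ (-α).re) *
        (nm n ^ (-(α + β)).re * ‖Gs G (se β (-v)) (nm n / Z)‖ * _) ≤
        2 / (sd K * nm k) * (Real.exp C₀ / nS np S * Real.exp C₀) *
        (Real.exp (6 * C₀) * M * (((SP K P).powerset.card : ℝ) *
          (C * u ^ (1 / 4 : ℝ) * (nm k * Q ^ 2 / (nm (idS T) * nm n))) *
          ∑ R ∈ S.powerset, |ha R (idS T * n)|)) := by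
          have e3 := hM (se β (-v)) hs' (nm n / Z)
          gcongr
      _ = _ := by
        have e4 : Real.exp (8 * C₀) = Real.exp C₀ * Real.exp C₀ * Real.exp (6 * C₀) := by
          rw [← Real.exp_add, ← Real.exp_add]
          congr 1
          ring
        rw [bnm, e4]
        field_simp
  refine le_trans (norm_sum_le _ _) (le_trans (Finset.sum_le_sum hterm) ?_)
  rw [← Finset.mul_sum]
  refine le_trans (mul_le_mul_of_nonneg_left hX (by positivity)) (le_of_eq ?_)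
  have hQe : u ^ (1 / 4 : ℝ) * (Q ^ 2 * Q ^ (e / 8)) = U ^ (1 / 4 : ℝ) * Q ^ (2 - e / 8) := by
    rw [hu, Real.mul_rpow hUpos.le (Real.rpow_nonneg hQ0.le _), ← Real.rpow_mul hQ0.le,
      ← Real.rpow_natCast Q 2, ← Real.rpow_add hQ0, mul_assoc, ← Real.rpow_add hQ0]
    congr 2
    push_cast
    ring
  unfold Er
  calc _ = 2 / sd K * M * C * ((SP K P).powerset.card : ℝ) * CH * Real.exp (8 * C₀) *
        (u ^ (1 / 4 : ℝ) * (Q ^ 2 * Q ^ (e / 8))) *
        (nS np (S ∩ T) / (nS np S * nS np T)) := by ring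
    _ = _ := by
      rw [hQe]
      ring

end

end Pool.Agent.H43.HC
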